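import Mathlib

/-!
# Positive rational numbers that are not norms from a given imaginary quadratic field
-/

set_option autoImplicit false

namespace Pool.Agent.Q188.HQ

/-- descent -/
lemma no_sol {p : ℕ} (hp : p.Prime) (a n : ℤ)
    (hdiv : ∀ X Y Z : ℤ, X ^ 2 + a * Y ^ 2 = n * Z ^ 2 → (p : ℤ) ∣ X ∧ (p : ℤ) ∣ Y ∧ (p : ℤ) ∣ Z) :
    ∀ m : ℕ, ∀ X Y Z : ℤ, Z.natAbs ≤ m → X ^ 2 + a * Y ^ 2 = n * Z ^ 2 → Z = 0 := by
  intro m
  induction m with
  | zero =>
    intro X Y Z hZ _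
    exact Int.natAbs_eq_zero.mp (Nat.le_zero.mp hZ)
  | succ m ih =>
    intro X Y Z hZ h
    by_contra hne
    obtain ⟨⟨x, rfl⟩, ⟨y, rfl⟩, ⟨z, rfl⟩⟩ := hdiv X Y Z h
    have hp0 : (p : ℤ) ≠ 0 := by exact_mod_cast hp.ne_zero
    have hz : z ≠ 0 := fun h0 => hne (by rw [h0, mul_zero])
    refine hz (ih x y z ?_ ?_)
    · rw [Int.natAbs_mul, Int.natAbs_natCast] at hZ
      have h2 := hp.two_le
      have h3 : 0 < z.natAbs := Int.natAbs_pos.mpr hz
      nlinarith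
    · have h4 : (p : ℤ) ^ 2 * (x ^ 2 + a * y ^ 2) = (p : ℤ) ^ 2 * (n * z ^ 2) := by linarith
      exact mul_left_cancel₀ (pow_ne_zero 2 hp0) h4

/-- the rational version -/
lemma no_rat {p : ℕ} (hp : p.Prime) (a n : ℤ)
    (hdiv : ∀ X Y Z : ℤ, X ^ 2 + a * Y ^ 2 = n * Z ^ 2 → (p : ℤ) ∣ X ∧ (p : ℤ) ∣ Y ∧ (p : ℤ) ∣ Z)
    (r s : ℚ) : r ^ 2 + a * s ^ 2 ≠ n := by
  intro h
  have hr : (r.den : ℚ) ≠ 0 := by exact_mod_cast r.den_nz
  have hs : (s.den : ℚ) ≠ 0 := by exact_mod_cast s.den_nz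
  have h1 : ((r.num * s.den) ^ 2 + a * (s.num * r.den) ^ 2 : ℤ) =
      n * ((r.den : ℤ) * s.den) ^ 2 := by
    have h2 : ((r.num : ℚ) * s.den) ^ 2 + a * (s.num * r.den) ^ 2 =
        n * ((r.den : ℚ) * s.den) ^ 2 := by
      rw [← h]
      have e1 : (r.num : ℚ) = r * r.den := (Rat.mul_den_eq_num r).symm
      have e2 : (s.num : ℚ) = s * s.den := (Rat.mul_den_eq_num s).symm
      rw [e1, e2]
      ring
    exact_mod_cast h2
  have h3 := no_sol hp a n hdiv _ _ _ _ le_rfl h1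
  rcases mul_eq_zero.mp h3 with h4 | h4
  · exact r.den_nz (by exact_mod_cast h4)
  · exact s.den_nz (by exact_mod_cast h4)

lemma sq_zmod {p : ℕ} [Fact p.Prime] {x : ℤ} : (p : ℤ) ∣ x ↔ (x : ZMod p) = 0 :=
  (ZMod.intCast_zmod_eq_zero_iff_dvd x p).symm

/-- an odd prime divides `a` exactly once -/
lemma case_odd {p : ℕ} (hp : p.Prime) (hp2 : p ≠ 2) {a : ℕ} (hpa : p ∣ a) (hsq : Squarefree a) :
    ∃ n : ℤ, 0 < n ∧ ∀ r s : ℚ, r ^ 2 + a * s ^ 2 ≠ n := by
  have : Fact p.Prime := ⟨hp⟩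
  obtain ⟨c, hc⟩ := FiniteField.exists_nonsquare (F := ZMod p) (by rwa [ZMod.ringChar_zmod_n])
  have hcv : ((c.val : ℤ) : ZMod p) = c := by
    rw [Int.cast_natCast, ZMod.natCast_val, ZMod.cast_id]
  refine ⟨c.val, ?_, fun r s h => ?_⟩
  · rcases Nat.eq_zero_or_pos c.val with h0 | h0
    · exact absurd ⟨0, by rw [(ZMod.val_eq_zero c).mp h0, mul_zero]⟩ hc
    · exact_mod_cast h0
  · refine no_rat hp (a : ℤ) (c.val : ℤ) ?_ r s (by exact_mod_cast h)
    intro X Y Z hXYZ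
    obtain ⟨a', rfl⟩ := hpa
    have hmod : ((X : ZMod p)) ^ 2 = c * (Z : ZMod p) ^ 2 := by
      have := congrArg (Int.cast : ℤ → ZMod p) hXYZ
      push_cast at this
      rw [CharP.cast_eq_zero (ZMod p) p] at this
      rw [Int.cast_natCast] at hcv
      rw [hcv] at this
      simpa using this
    have hZ : (Z : ZMod p) = 0 := by
      by_contra hZ
      apply hc
      refine ⟨X / Z, ?_⟩
      field_simp
      linear_combination -hmod
    have hX : (X : ZMod p) = 0 := by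
      rw [hZ] at hmod
      have : (X : ZMod p) ^ 2 = 0 := by rw [hmod]; ring
      exact pow_eq_zero_iff (two_ne_zero) |>.mp this
    refine ⟨sq_zmod.mpr hX, ?_, sq_zmod.mpr hZ⟩
    obtain ⟨x, rfl⟩ := sq_zmod.mpr hX
    obtain ⟨z, rfl⟩ := sq_zmod.mpr hZ
    have hp0 : (p : ℤ) ≠ 0 := by exact_mod_cast hp.ne_zero
    have h1 : (a' : ℤ) * Y ^ 2 = p * (c.val * z ^ 2 - x ^ 2) := by
      apply mul_left_cancel₀ hp0
      push_cast at hXYZ
      linear_combination hXYZ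
    have h2 : (p : ℤ) ∣ a' * Y ^ 2 := ⟨_, h1⟩
    have hpi : Prime (p : ℤ) := Nat.prime_iff_prime_int.mp hp
    rcases hpi.dvd_or_dvd h2 with h3 | h3
    · exfalso
      have h4 : p ∣ a' := by exact_mod_cast h3
      have h5 : p * p ∣ p * a' := Nat.mul_dvd_mul_left p h4
      exact hp.one_lt.ne' (Nat.isUnit_iff.mp (hsq p h5))
    · exact hpi.dvd_of_dvd_pow h3

/-- `-a` is not a square modulo `p` -/
lemma case_small {p : ℕ} (hp : p.Prime) (a : ℕ) (hns : ∀ x : ZMod p, x ^ 2 ≠ -(a : ZMod p)) :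
    ∀ r s : ℚ, r ^ 2 + a * s ^ 2 ≠ (p : ℤ) := by
  have : Fact p.Prime := ⟨hp⟩
  intro r s h
  refine no_rat hp (a : ℤ) (p : ℤ) ?_ r s (by exact_mod_cast h)
  intro X Y Z hXYZ
  have hmod : ((X : ZMod p)) ^ 2 = -(a : ZMod p) * (Y : ZMod p) ^ 2 := by
    have := congrArg (Int.cast : ℤ → ZMod p) hXYZ
    push_cast at this
    rw [CharP.cast_eq_zero (ZMod p) p] at this
    linear_combination this
  have hY : (Y : ZMod p) = 0 := by
    by_contra hY
    apply hns (X / Y)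
    field_simp
    linear_combination hmod
  have hX : (X : ZMod p) = 0 := by
    rw [hY] at hmod
    have : (X : ZMod p) ^ 2 = 0 := by rw [hmod]; ring
    exact pow_eq_zero_iff (two_ne_zero) |>.mp this
  refine ⟨sq_zmod.mpr hX, sq_zmod.mpr hY, ?_⟩
  obtain ⟨x, rfl⟩ := sq_zmod.mpr hX
  obtain ⟨y, rfl⟩ := sq_zmod.mpr hY
  have hp0 : (p : ℤ) ≠ 0 := by exact_mod_cast hp.ne_zero
  have h1 : Z ^ 2 = p * (x ^ 2 + a * y ^ 2) := by
    apply mul_left_cancel₀ hp0
    linear_combination -hXYZ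
  have hpi : Prime (p : ℤ) := Nat.prime_iff_prime_int.mp hp
  exact hpi.dvd_of_dvd_pow ⟨_, h1⟩

/-- no positive definite form `r ^ 2 + D s ^ 2` represents all positive rational numbers -/
theorem exists_not_rep (D : ℚ) (hD : 0 < D) : ∃ q : ℚ, 0 < q ∧ ∀ r s : ℚ, r ^ 2 + D * s ^ 2 ≠ q := by
  -- squarefree part
  obtain ⟨a, c, hsq, hc, hDa⟩ : ∃ (a : ℕ) (c : ℚ), Squarefree a ∧ c ≠ 0 ∧ D = a * c ^ 2 := by
    obtain ⟨a, b, -, -, hab, hsq⟩ := Nat.sq_mul_squarefree_of_pos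
      (n := D.num.natAbs * D.den) (by
        have : 0 < D.num.natAbs := Int.natAbs_pos.mpr (Rat.num_pos.mpr hD).ne'
        exact Nat.mul_pos this D.den_pos)
    have hd : (D.den : ℚ) ≠ 0 := by exact_mod_cast D.den_nz
    have h1 : (D.num.natAbs : ℚ) = D.num := by
      rw [Nat.cast_natAbs, abs_of_pos (Rat.num_pos.mpr hD)]
    have h2 : (b : ℚ) ^ 2 * a = D.num * D.den := by
      rw [← h1]
      exact_mod_cast hab
    have hb : (b : ℚ) ≠ 0 := by
      intro h0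
      rw [h0] at h2
      have h3 : (D.num : ℚ) ≠ 0 := by exact_mod_cast (Rat.num_pos.mpr hD).ne'
      apply mul_ne_zero h3 hd
      rw [← h2]
      ring
    refine ⟨a, b / D.den, hsq, div_ne_zero hb hd, ?_⟩
    have h3 : D * D.den = D.num := Rat.mul_den_eq_num D
    field_simp
    rw [mul_comm (a : ℚ), h2, ← h3]
    ring
  have key : ∃ n : ℤ, 0 < n ∧ ∀ r s : ℚ, r ^ 2 + a * s ^ 2 ≠ n := by
    by_cases hodd : ∃ p : ℕ, p.Prime ∧ p ≠ 2 ∧ p ∣ a
    · obtain ⟨p, hp, hp2, hpa⟩ := hodd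
      exact case_odd hp hp2 hpa hsq
    · push Not at hodd
      have ha : a ∣ 2 := by
        have h0 : a ≠ 0 := hsq.ne_zero
        rw [← Nat.factorization_le_iff_dvd h0 two_ne_zero]
        intro p
        by_cases hp : p.Prime
        · by_cases hp2 : p = 2
          · subst hp2
            rw [Nat.prime_two.factorization_self]
            exact hsq.natFactorization_le_one 2
          · rw [Nat.factorization_eq_zero_of_not_dvd (hodd p hp hp2)]
            exact Nat.zero_le _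
        · rw [Nat.factorization_eq_zero_of_not_prime a hp]
          exact Nat.zero_le _
      rcases (Nat.dvd_prime Nat.prime_two).mp ha with rfl | rfl
      · exact ⟨(3 : ℕ), by norm_num, case_small (by norm_num) 1 (by decide)⟩
      · exact ⟨(5 : ℕ), by norm_num, case_small (by norm_num) 2 (by decide)⟩
  obtain ⟨n, hn, h⟩ := key
  refine ⟨n, by exact_mod_cast hn, fun r s hrs => h r (c * s) ?_⟩
  rw [← hrs, hDa]
  ring

end Pool.Agent.Q188.HQ
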