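import Mathlib

/-!
# Fields with an archimedean absolute value embed into the complex numbers
-/

set_option autoImplicit false

namespace Pool.Agent.Q188.HQ

open UniformSpace

lemma le_of_pow_le {x y : ℝ} (hy : 0 ≤ y) (h : ∀ n : ℕ, x ^ n ≤ 2 * y ^ n) : x ≤ y := by
  by_contra hxy
  push Not at hxy
  rcases hy.eq_or_lt with h0 | h0
  · have := h 1
    rw [pow_one, pow_one, ← h0] at this
    linarith
  · obtain ⟨n, hn⟩ := pow_unbounded_of_one_lt 2 ((one_lt_div h0).mpr hxy)
    have h1 := h n
    rw [div_pow, lt_div_iff₀ (by positivity)] at hn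
    linarith

/-- a multiplicative norm on `ℂ` that extends the absolute value of `ℝ` -/
lemma norm_complex (N : ℂ → ℝ) (h0 : ∀ z, 0 ≤ N z) (hmul : ∀ z w, N (z * w) = N z * N w)
    (hadd : ∀ z w, N (z + w) ≤ N z + N w) (hr : ∀ r : ℝ, N r = |r|) (z : ℂ) : N z = ‖z‖ := by
  have h1 : N 1 = 1 := by simpa using hr 1
  have hpow : ∀ (z : ℂ) (n : ℕ), N (z ^ n) = N z ^ n := by
    intro z n
    induction n with
    | zero => simp [h1]
    | succ n ih => rw [pow_succ, hmul, ih, pow_succ]
  have hI : N Complex.I = 1 := by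
    have h2 := hpow Complex.I 2
    rw [Complex.I_sq] at h2
    have h3 := hr (-1)
    rw [abs_neg, abs_one] at h3
    push_cast at h3
    rw [h3] at h2
    have h4 : (N Complex.I - 1) * (N Complex.I + 1) = 0 := by ring_nf; linarith
    rcases mul_eq_zero.mp h4 with h5 | h5
    · linarith
    · linarith [h0 Complex.I]
  have hle2 : ∀ z : ℂ, N z ≤ 2 * ‖z‖ := by
    intro z
    have h2 : z = (z.re : ℂ) + (z.im : ℂ) * Complex.I := (Complex.re_add_im z).symm
    calc N z = N ((z.re : ℂ) + (z.im : ℂ) * Complex.I) := by rw [← h2]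
      _ ≤ N (z.re : ℂ) + N ((z.im : ℂ) * Complex.I) := hadd _ _
      _ = |z.re| + |z.im| := by rw [hmul, hI, hr, hr, mul_one]
      _ ≤ 2 * ‖z‖ := by
        have := Complex.abs_re_le_norm z
        have := Complex.abs_im_le_norm z
        linarith
  have hle : ∀ z : ℂ, N z ≤ ‖z‖ := by
    intro z
    refine le_of_pow_le (norm_nonneg z) fun n => ?_
    rw [← hpow, ← norm_pow]
    exact hle2 _
  refine le_antisymm (hle z) ?_
  rcases eq_or_ne z 0 with rfl | hz
  · simpa using h0 0
  · have h2 := hle z⁻¹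
    have h3 : N z * N z⁻¹ = 1 := by rw [← hmul, mul_inv_cancel₀ hz, h1]
    have hz' : 0 < ‖z‖ := norm_pos_iff.mpr hz
    rw [norm_inv] at h2
    have h4 : 0 < N z := by
      rcases (h0 z).eq_or_lt with h5 | h5
      · rw [← h5, zero_mul] at h3
        exact absurd h3 zero_ne_one
      · exact h5
    have h5 : N z⁻¹ = (N z)⁻¹ := eq_inv_of_mul_eq_one_right h3
    rw [h5, inv_le_inv₀ h4 hz'] at h2
    exact h2

/-- **Ostrowski's theorem**, archimedean case -/
theorem embed {K : Type*} [NormedField K] (h : ∀ n : ℕ, ‖(n : K)‖ = n) :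
    ∃ j : K →+* ℂ, ∀ x, ‖j x‖ = ‖x‖ := by
  let C := Completion K
  let ι : K →+* C := Completion.coeRingHom
  have hι : ∀ x, ‖ι x‖ = ‖x‖ := fun x => Completion.norm_coe x
  have hnat : ∀ n : ℕ, ‖(n : C)‖ = n := by
    intro n
    rw [← map_natCast ι n, hι, h]
  have : CharZero C := by
    refine charZero_of_inj_zero fun n hn => ?_
    have := hnat n
    rw [hn, norm_zero] at this
    exact_mod_cast this.symm
  have hint : ∀ n : ℤ, ‖(n : C)‖ = |(n : ℝ)| := by
    intro n
    obtain ⟨m, rfl | rfl⟩ := n.eq_nat_or_neg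
    · rw [Int.cast_natCast, hnat, Int.cast_natCast, Nat.abs_cast]
    · rw [Int.cast_neg, norm_neg, Int.cast_natCast, hnat, Int.cast_neg, abs_neg, Int.cast_natCast,
        Nat.abs_cast]
  have hrat : ∀ q : ℚ, ‖(q : C)‖ = |(q : ℝ)| := by
    intro q
    rw [Rat.cast_def, norm_div, hint, hnat]
    conv_rhs => rw [Rat.cast_def, abs_div, Nat.abs_cast]
  let f : ℚ →+* C := Rat.castHom C
  have hf : UniformContinuous f := by
    have : Isometry f := by
      refine AddMonoidHomClass.isometry_of_norm f fun q => ?_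
      rw [Rat.coe_castHom, hrat, ← Rat.norm_cast_real, Real.norm_eq_abs]
    exact this.uniformContinuous
  have ue : IsUniformInducing (Rat.castHom ℝ) :=
    Rat.isUniformEmbedding_coe_real.isUniformInducing
  have dr : DenseRange (Rat.castHom ℝ) := Rat.denseRange_cast
  let g : ℝ →+* C := IsDenseInducing.extendRingHom ue dr hf
  have hgc : Continuous g := (uniformContinuous_uniformly_extend ue dr hf).continuous
  have hgq : ∀ q : ℚ, g q = q := fun q => uniformly_extend_of_ind ue dr hf q
  have hgn : ∀ r : ℝ, ‖g r‖ = |r| := by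
    intro r
    refine dr.induction_on (p := fun r => ‖g r‖ = |r|) r ?_ fun q => ?_
    · exact isClosed_eq hgc.norm continuous_abs
    · rw [Rat.coe_castHom, hgq, hrat]
  let _ : Algebra ℝ C := g.toAlgebra
  let _ : NormedAlgebra ℝ C :=
    { (inferInstance : Algebra ℝ C) with
      norm_smul_le := fun r x => by
        rw [Algebra.smul_def, norm_mul]
        exact le_of_eq (by rw [show algebraMap ℝ C r = g r from rfl, hgn, Real.norm_eq_abs]) }
  have halg : ∀ r : ℝ, ‖algebraMap ℝ C r‖ = |r| := hgn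
  rcases NormedAlgebra.Real.nonempty_algEquiv_or C with ⟨⟨e⟩⟩ | ⟨⟨e⟩⟩
  · refine ⟨(Complex.ofRealHom.comp (e : C →+* ℝ)).comp ι, fun x => ?_⟩
    have h1 : ι x = algebraMap ℝ C (e (ι x)) := by
      apply e.injective
      rw [e.commutes]
      rfl
    rw [← hι x]
    conv_rhs => rw [h1, halg]
    simp
  · refine ⟨(e : C →+* ℂ).comp ι, fun x => ?_⟩
    have h1 := norm_complex (fun z => ‖e.symm z‖) (fun z => norm_nonneg _)
      (fun z w => by rw [map_mul, norm_mul]) (fun z w => by rw [map_add]; exact norm_add_le _ _)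
      (fun r => by
        have : e.symm (r : ℂ) = algebraMap ℝ C r := by
          apply e.injective
          rw [e.commutes, e.apply_symm_apply]
          rfl
        rw [this, halg]) (e (ι x))
    simp only [e.symm_apply_apply] at h1
    rw [← hι x, h1]
    rfl

end Pool.Agent.Q188.HQ
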