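import Pool.Agent.Q188.HQ.Embed
import Pool.Agent.Q188.HQ.Arith

/-!
# Commutative fields with a map like the norm of the rational quaternions
-/

set_option autoImplicit false

namespace Pool.Agent.Q188.HQ

/-- the norms of a subfield of `ℂ` whose elements have rational norms do not exhaust the positive
rational numbers -/
theorem norms_not_all {K : Type*} [Field K] (j : K →+* ℂ) (h1 : ∀ x, ∃ q : ℚ, Complex.normSq (j x) = q)
    (h2 : ∀ q : ℚ, 0 < q → ∃ x, Complex.normSq (j x) = q) : False := by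
  have hre : ∀ x, ∃ t : ℚ, (j x).re = t := by
    intro x
    obtain ⟨q, hq⟩ := h1 x
    obtain ⟨q', hq'⟩ := h1 (1 + x)
    refine ⟨(q' - 1 - q) / 2, ?_⟩
    rw [map_add, map_one, Complex.normSq_apply] at hq'
    rw [Complex.normSq_apply] at hq
    simp only [Complex.add_re, Complex.one_re, Complex.add_im, Complex.one_im, zero_add] at hq'
    push_cast
    linear_combination (hq' - hq) / 2
  obtain ⟨x0, hx0⟩ := h2 2 two_pos
  obtain ⟨t, ht⟩ := hre x0
  set y : ℝ := (j x0).im with hy
  have hD : y * y = 2 - (t : ℝ) * t := by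
    rw [Complex.normSq_apply, ht, ← hy] at hx0
    push_cast at hx0
    linarith
  have hy0 : y ≠ 0 := by
    intro h0
    rw [h0, zero_mul] at hD
    have h3 : (t : ℝ) * t = 2 := by linarith
    have h4 : t * t = 2 := by exact_mod_cast h3
    have h5 : IsSquare (2 : ℚ) := ⟨t, h4.symm⟩
    rw [Rat.isSquare_iff] at h5
    have h6 : IsSquare (2 : ℤ) := by simpa using h5.1
    obtain ⟨m, hm⟩ := h6
    have h7 : m.natAbs * m.natAbs = 2 := by
      have := congrArg Int.natAbs hm
      rw [Int.natAbs_mul] at this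
      exact this.symm
    have h8 : m.natAbs ≤ 1 := by
      by_contra h
      push Not at h
      nlinarith
    interval_cases hh : m.natAbs <;> omega
  set D : ℚ := 2 - t * t with hDdef
  have hDr : y * y = (D : ℝ) := by rw [hD, hDdef]; push_cast; ring
  have hDpos : 0 < D := by
    have : (0 : ℝ) < D := by
      rw [← hDr]
      exact mul_self_pos.mpr hy0
    exact_mod_cast this
  -- the purely imaginary element
  have him : ∀ x, ∃ s : ℚ, (j x).im = s * y := by
    intro x
    obtain ⟨r, hr⟩ := hre (x * (x0 - (t : K)))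
    refine ⟨-r / D, ?_⟩
    have hw : j (x0 - (t : K)) = (y : ℂ) * Complex.I := by
      rw [map_sub, map_ratCast]
      apply Complex.ext
      · simp [ht]
      · simp [hy]
    rw [map_mul, hw] at hr
    simp only [Complex.mul_re, Complex.ofReal_re, Complex.I_re, mul_zero, Complex.ofReal_im,
      Complex.I_im, mul_one, sub_self, zero_sub, Complex.mul_im, zero_mul, add_zero] at hr
    have hDne : (D : ℝ) ≠ 0 := by exact_mod_cast hDpos.ne'
    push_cast
    rw [← hr, ← hDr]
    field_simp
  obtain ⟨q, hq, hqn⟩ := exists_not_rep D hDpos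
  obtain ⟨x, hx⟩ := h2 q hq
  obtain ⟨r, hr⟩ := hre x
  obtain ⟨s, hs⟩ := him x
  apply hqn r s
  rw [Complex.normSq_apply, hr, hs] at hx
  have : (r : ℝ) ^ 2 + D * s ^ 2 = q := by
    rw [← hDr, ← hx]
    ring
  exact_mod_cast this

/-- **Main theorem**: a commutative field has no norm like the one of the rational quaternions. -/
theorem main {K : Type*} [Field K] (φ : K → ℚ) (h0 : ∀ x, 0 ≤ φ x) (hz : ∀ x, φ x = 0 ↔ x = 0)
    (hmul : ∀ x y, φ (x * y) = φ x * φ y)
    (hadd : ∀ x y, Real.sqrt (φ (x + y)) ≤ Real.sqrt (φ x) + Real.sqrt (φ y))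
    (hsurj : ∀ q : ℚ, 0 < q → ∃ x, φ x = q)
    (h4 : ∃ x y, φ x = 1 ∧ φ y = 1 ∧ φ (x + y) = 4) : False := by
  let a : AbsoluteValue K ℝ :=
    { toFun := fun x => Real.sqrt (φ x)
      map_mul' := fun x y => by
        rw [hmul]
        push_cast
        exact Real.sqrt_mul (by exact_mod_cast h0 x) _
      nonneg' := fun x => Real.sqrt_nonneg _
      eq_zero' := fun x => by
        rw [Real.sqrt_eq_zero (by exact_mod_cast h0 x), Rat.cast_eq_zero, hz]
      add_le' := hadd }
  have ha : ∀ x, a x = Real.sqrt (φ x) := fun x => rfl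
  have hsq : ∀ x, a x ^ 2 = φ x := fun x => by
    rw [ha, Real.sq_sqrt (by exact_mod_cast h0 x)]
  have ha1 : a 1 = 1 := map_one a
  have hnat_le : ∀ n : ℕ, a n ≤ n := by
    intro n
    induction n with
    | zero => simp
    | succ n ih =>
      push_cast
      calc a ((n : K) + 1) ≤ a n + a 1 := a.add_le _ _
        _ ≤ n + 1 := by rw [ha1]; linarith
  obtain ⟨x, y, hx, hy, hxy⟩ := h4
  have hax : a x = 1 := by rw [ha, hx]; simp
  have hay : a y = 1 := by rw [ha, hy]; simp
  have haxy : a (x + y) = 2 := by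
    rw [ha, hxy]
    rw [show ((4 : ℚ) : ℝ) = 2 ^ 2 by norm_num]
    exact Real.sqrt_sq (by norm_num)
  have hnat : ∀ n : ℕ, a n = n := by
    intro n
    rcases Nat.eq_zero_or_pos n with rfl | hn
    · simp
    refine le_antisymm (hnat_le n) ?_
    have e1 : a ((x + y) ^ n) = 2 ^ n := by rw [map_pow, haxy]
    rw [add_pow] at e1
    have e2 : (2 : ℝ) ^ n ≤ ∑ m ∈ Finset.range (n + 1), a ((n.choose m : ℕ) : K) := by
      rw [← e1]
      refine (a.sum_le _ _).trans (Finset.sum_le_sum fun m _ => ?_)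
      rw [map_mul, map_mul, map_pow, map_pow, hax, hay]
      simp
    have e3 : (2 : ℝ) ^ n = ∑ m ∈ Finset.range (n + 1), ((n.choose m : ℕ) : ℝ) := by
      have := Nat.sum_range_choose n
      exact_mod_cast this.symm
    have h1mem : 1 ∈ Finset.range (n + 1) := by
      rw [Finset.mem_range]
      omega
    rw [e3, ← Finset.add_sum_erase _ _ h1mem, ← Finset.add_sum_erase _ _ h1mem] at e2
    have e4 : ∑ m ∈ (Finset.range (n + 1)).erase 1, a ((n.choose m : ℕ) : K) ≤
        ∑ m ∈ (Finset.range (n + 1)).erase 1, ((n.choose m : ℕ) : ℝ) :=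
      Finset.sum_le_sum fun m _ => hnat_le _
    rw [Nat.choose_one_right] at e2
    linarith
  letI := a.toNormedField
  obtain ⟨j, hj⟩ := embed (K := K) hnat
  have hj' : ∀ x, Complex.normSq (j x) = φ x := by
    intro x
    rw [Complex.normSq_eq_norm_sq, hj, ← hsq]
    rfl
  exact norms_not_all j (fun x => ⟨φ x, hj' x⟩) (fun q hq => by
    obtain ⟨x, hx⟩ := hsurj q hq
    exact ⟨x, by rw [hj', hx]⟩)

end Pool.Agent.Q188.HQ
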